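import Pool.Agent.X255.BC.Fin

/-!
# A finite group with more 3-regular classes than any subgroup of order prime to 3 has classes

For a finite group `G` and a prime `p`, the number `ℓ_p(G)` of irreducible `p`-Brauer characters is
the number of conjugacy classes of `p`-regular elements. The question asks whether
`ℓ_p(G) ≤ max {k(H) : H ≤ G, p ∤ |H|}` always holds. It does not: with `p = 3` there is a group of
order `92160`, the fibre product over `{±1}` of `PΓL_2(9)` and a group of order `2^7`, which has at
least `360` classes of `3`-regular elements while `k(H) ≤ 359` for every subgroup `H` of order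
prime to `3`. Taking direct powers, the ratio is unbounded.
-/

namespace Pool.Agent.Results.MP_58d2c7_al.BrauerVsClassNumber

open Pool.Agent.X255.BC

theorem result :
    (∃ (G : Type) (_ : Group G) (_ : Finite G) (p : ℕ), p.Prime ∧
      ∀ H : Subgroup G, ¬ p ∣ Nat.card H →
        Nat.card (ConjClasses H) <
          Nat.card {c : ConjClasses G // ∃ g : G, ConjClasses.mk g = c ∧ ¬ p ∣ orderOf g}) ∧
    (∀ C : ℕ, ∃ (G : Type) (_ : Group G) (_ : Finite G),
      ∀ H : Subgroup G, ¬ 3 ∣ Nat.card H →
        C * Nat.card (ConjClasses H) <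
          Nat.card {c : ConjClasses G // ∃ g : G, ConjClasses.mk g = c ∧ ¬ 3 ∣ orderOf g}) := by
  refine ⟨?_, unbounded⟩
  obtain ⟨G, hG, hF, h⟩ := unbounded 1
  refine ⟨G, hG, hF, 3, Nat.prime_three, fun H h3 => ?_⟩
  have h1 := h H h3
  rwa [one_mul] at h1

end Pool.Agent.Results.MP_58d2c7_al.BrauerVsClassNumber
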